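import Pool.Agent.N321.KT.Defs

/-!
Project KT (helper321), leaf END: the conservation laws are constant.
-/

set_option autoImplicit false

open Filter Topology

namespace Pool.Agent.N395.KT

open Pool.Agent.N321.KT

theorem t (h1 : S_JET) (h2 : S_LOC) (h3 : S_DEN) : S_END := by
  intro ι _ _ m r P U K x₀ hm hr hNice hU hUc hK hx₀ hev W f hW hWc hWU hf hlaw x hx y hy
  have hKs : ∀ s j, ContDiffOn ℝ (⊤ : ℕ∞) (fun x => K x s j) W := fun s j =>
    ((hK s j).mono hWU).contDiffOn hW.uniqueDiffOn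
  -- the points where the polynomial is not zero
  have stepA : ∀ z ∈ W,
      MvPolynomial.eval (fun q => r ^ q.2.2.length * jet (fun y => K y q.1 q.2.1) z q.2.2) P ≠ 0 →
      fderiv ℝ f z = 0 := by
    intro z hz hevz
    obtain ⟨hS, hom⟩ := h1 ι W K f hW hKs hf hlaw z hz
    have hL := h2 ι m (fun s j => jet (fun y => K y s j) z) (jet f z) r hS hom
    have hN := hNice (fun s j w => r ^ w.length * jet (fun y => K y s j) z w) hevz
    have hpd : ∀ i, pd i f z = 0 := by
      intro i
      by_contra hne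
      have h4 := hN _ hL [i] (by
        have h5 : (1 ≤ [i].length ∧ [i].length ≤ m) := ⟨le_rfl, by simp; omega⟩
        rw [if_pos h5]
        exact mul_ne_zero (pow_ne_zero _ hr.ne') hne)
      simp at h4
      omega
    have h6 : (fderiv ℝ f z : (ι → ℝ) →ₗ[ℝ] ℝ) = 0 := by
      refine LinearMap.pi_ext' fun i => LinearMap.ext_ring ?_
      have := hpd i
      simpa [pd] using this
    ext v
    exact congrArg (fun l : (ι → ℝ) →ₗ[ℝ] ℝ => l v) h6
  have hcont : ContinuousOn (fderiv ℝ f) W :=
    hf.continuousOn_fderiv_of_isOpen hW (by exact_mod_cast le_top)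
  have stepB : W.EqOn (fderiv ℝ f) 0 := by
    intro z hz
    by_contra hne
    have hVo : IsOpen (W ∩ fderiv ℝ f ⁻¹' {0}ᶜ) := hcont.isOpen_inter_preimage hW isOpen_compl_singleton
    obtain ⟨w, hw, hevw⟩ := h3 ι r P U K x₀ hU hUc hK hx₀ hev _ hVo ⟨z, hz, hne⟩
      (Set.inter_subset_left.trans hWU)
    exact hw.2 (stepA w hw.1 hevw)
  exact hW.is_const_of_fderiv_eq_zero hWc (hf.differentiableOn (by simp)) stepB hx hy

end Pool.Agent.N395.KT
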